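import Pool.Agent.H72.GP.Targets

/-!
# The values at `1 / N`
-/

set_option autoImplicit false

open Polynomial Finset

namespace Pool.Agent.H72.GPO

open Pool.Agent.H72.GP

theorem pf_VFF : T_VFF := by
  intro s N B κ x y hB hN hxy k
  have hN0 : (0 : ℝ) < N := by
    have : 0 < N := by omega
    exact_mod_cast this
  obtain ⟨w, hw⟩ : ∃ w : ℂ, w = 1 + ((x k : ℂ) + (y k : ℂ) * Complex.I) / N := ⟨_, rfl⟩
  have hre : 0 < w.re := by
    have h1 : w.re = 1 + (x k : ℝ) / N := by
      rw [hw]
      have : ((x k : ℂ) + (y k : ℂ) * Complex.I) / N = (((x k : ℝ) / N : ℝ) : ℂ) +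
          (((y k : ℝ) / N : ℝ) : ℂ) * Complex.I := by
        push_cast
        ring
      rw [this]
      simp
    rw [h1]
    have h2 : -(N : ℝ) < x k := by
      have h3 := (abs_le.1 (hxy k).1).1
      have h4 : -(N : ℤ) < x k := by omega
      exact_mod_cast h4
    have h5 : -1 < (x k : ℝ) / N := by
      rw [lt_div_iff₀ hN0]
      linarith
    linarith
  have harg : w.arg ≠ Real.pi := by
    intro h
    rw [Complex.arg_eq_pi_iff] at h
    linarith [h.1]
  have hconj : Complex.log ((starRingEnd ℂ) w) = (starRingEnd ℂ) (Complex.log w) :=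
    Complex.log_conj w harg
  have e1 : (1 : ℂ) + (((x k : ℚ) : ℂ) + ((y k : ℚ) : ℂ) * Complex.I) * ((1 / N : ℚ) : ℂ) = w := by
    rw [hw]
    push_cast
    ring
  have e2 : (1 : ℂ) + (((x k : ℚ) : ℂ) - ((y k : ℚ) : ℂ) * Complex.I) * ((1 / N : ℚ) : ℂ) =
      (starRingEnd ℂ) w := by
    rw [hw]
    simp only [map_add, map_one, map_div₀, map_mul, map_intCast, map_natCast, Complex.conj_I]
    push_cast
    ring
  unfold FF vG
  rw [e1, e2, hconj, ← hw]
  split_ifs with h
  · rw [Complex.sub_conj]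
    push_cast
    field_simp
  · rw [Complex.add_conj]
    push_cast
    ring

end Pool.Agent.H72.GPO
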