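import Pool.Agent.H72.GP.Targets

/-!
# The local expansions of the logarithms solve the system
-/

set_option autoImplicit false

open Polynomial Finset

namespace Pool.Agent.H72.GPO

open Pool.Agent.H72.GP

/-- the part of a pair -/
def pr (κ : Bool) (p : ℚ × ℚ) : ℚ := if κ then p.2 else p.1

theorem gp_rec (κ : Bool) (x y : ℚ) (n : ℕ) :
    pr κ (gp x y (n + 2)) = 2 * x * pr κ (gp x y (n + 1)) - (x ^ 2 + y ^ 2) * pr κ (gp x y n) := by
  cases κ
  · simp only [pr, gp, if_false, Bool.false_eq_true]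
    ring
  · simp only [pr, gp, if_true]
    ring

theorem gp_one (κ : Bool) (x y : ℚ) : pr κ (gp x y 1) = if κ then y else x := by
  cases κ <;> simp [pr, gp]

theorem coeff_der (κ : Bool) (x y : ℚ) (n : ℕ) :
    PowerSeries.coeff n (PowerSeries.derivative ℚ (lgG κ x y)) =
      (-1) ^ n * pr κ (gp x y (n + 1)) := by
  rw [PowerSeries.coeff_derivative, lgG, PowerSeries.coeff_mk]
  have h : ((n : ℚ) + 1) ≠ 0 := by positivity
  unfold pr
  push_cast
  field_simp
  ring

theorem nm_c0 (κ : Bool) (x y : ℚ) : (nm κ x y).coeff 0 = if κ then y else x := by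
  unfold nm
  cases κ
  · simp only [Bool.false_eq_true, if_false]
    rw [coeff_add, coeff_C_mul, coeff_C_zero, coeff_X_zero]
    ring
  · simp only [if_true]
    rw [coeff_C_zero]

theorem nm_c1 (κ : Bool) (x y : ℚ) : (nm κ x y).coeff 1 = if κ then 0 else x ^ 2 + y ^ 2 := by
  unfold nm
  cases κ
  · simp only [Bool.false_eq_true, if_false]
    rw [coeff_add, coeff_C_mul, coeff_C_ne_zero one_ne_zero, coeff_X_one]
    ring
  · simp only [if_true]
    rw [coeff_C_ne_zero one_ne_zero]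

theorem nm_c2 (κ : Bool) (x y : ℚ) (n : ℕ) : (nm κ x y).coeff (n + 2) = 0 := by
  unfold nm
  cases κ
  · simp only [Bool.false_eq_true, if_false]
    rw [coeff_add, coeff_C_mul, coeff_C_ne_zero (by omega), coeff_X_of_ne_one (by omega)]
    ring
  · simp only [if_true]
    rw [coeff_C_ne_zero (by omega)]

theorem der_lgG (κ : Bool) (x y : ℚ) :
    ((qd x y : ℚ[X]) : PowerSeries ℚ) * PowerSeries.derivative ℚ (lgG κ x y) =
      ((nm κ x y : ℚ[X]) : PowerSeries ℚ) := by
  have h1 : ((qd x y : ℚ[X]) : PowerSeries ℚ) = 1 + PowerSeries.C (2 * x) * PowerSeries.X +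
      PowerSeries.C (x ^ 2 + y ^ 2) * PowerSeries.X ^ 2 := by
    unfold qd
    push_cast
    rfl
  rw [h1]
  ext n
  rw [Polynomial.coeff_coe, add_mul, add_mul, one_mul, map_add, map_add, mul_assoc, mul_assoc,
    PowerSeries.coeff_C_mul, PowerSeries.coeff_C_mul, coeff_der]
  rcases n with _ | _ | n
  · rw [PowerSeries.coeff_zero_X_mul, pow_two (PowerSeries.X : PowerSeries ℚ),
      mul_assoc (PowerSeries.X : PowerSeries ℚ) PowerSeries.X, PowerSeries.coeff_zero_X_mul,
      nm_c0, gp_one]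
    ring
  · rw [PowerSeries.coeff_succ_X_mul, pow_two (PowerSeries.X : PowerSeries ℚ),
      mul_assoc (PowerSeries.X : PowerSeries ℚ) PowerSeries.X, PowerSeries.coeff_succ_X_mul,
      PowerSeries.coeff_zero_X_mul, coeff_der, gp_one]
    have h2 := gp_rec κ x y 0
    rw [zero_add, gp_one] at h2
    rw [zero_add, nm_c1, h2]
    have h3 : pr κ (gp x y 0) = if κ then 0 else 1 := by cases κ <;> simp [pr, gp]
    rw [h3]
    cases κ
    · simp only [Bool.false_eq_true, if_false]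
      ring
    · simp only [if_true]
      ring
  · rw [PowerSeries.coeff_succ_X_mul, pow_two (PowerSeries.X : PowerSeries ℚ),
      mul_assoc (PowerSeries.X : PowerSeries ℚ) PowerSeries.X, PowerSeries.coeff_succ_X_mul,
      PowerSeries.coeff_succ_X_mul, coeff_der, coeff_der]
    have h2 := gp_rec κ x y (n + 1)
    have h3 := nm_c2 κ x y n
    rw [h3, h2]
    ring

theorem tay_qd (x y z0 : ℚ) (h : qn x y z0 ≠ 0) : taylor z0 (qd x y) =
    C (qn x y z0) * qd ((x + (x ^ 2 + y ^ 2) * z0) / qn x y z0) (y / qn x y z0) := by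
  have e1 : qn x y z0 * (2 * ((x + (x ^ 2 + y ^ 2) * z0) / qn x y z0)) =
      2 * (x + (x ^ 2 + y ^ 2) * z0) := by
    field_simp
  have e2 : qn x y z0 * (((x + (x ^ 2 + y ^ 2) * z0) / qn x y z0) ^ 2 + (y / qn x y z0) ^ 2) =
      x ^ 2 + y ^ 2 := by
    have e3 : (x + (x ^ 2 + y ^ 2) * z0) ^ 2 + y ^ 2 = (x ^ 2 + y ^ 2) * qn x y z0 := by
      unfold qn
      ring
    rw [div_pow, div_pow, ← add_div, e3]
    field_simp
  unfold qd
  rw [mul_add, mul_add, mul_one, ← mul_assoc, ← mul_assoc, ← C_mul, ← C_mul, e1, e2, map_add,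
    map_add, taylor_one, taylor_mul, taylor_mul, taylor_C, taylor_C, taylor_pow, taylor_X]
  have e4 : C (qn x y z0) = 1 + C (2 * x) * C z0 + C (x ^ 2 + y ^ 2) * C z0 ^ 2 := by
    unfold qn
    simp only [map_add, map_mul, map_pow, map_one]
  rw [e4]
  have e5 : C (2 * (x + (x ^ 2 + y ^ 2) * z0)) = C (2 * x) + 2 * C (x ^ 2 + y ^ 2) * C z0 := by
    simp only [map_add, map_mul, map_pow, map_ofNat]
    ring
  rw [e5]
  have e6 : (C 1 : ℚ[X]) = 1 := C_1
  try rw [e6]
  ring

theorem tay_nm (κ : Bool) (x y z0 : ℚ) (h : qn x y z0 ≠ 0) : taylor z0 (nm κ x y) =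
    C (qn x y z0) * nm κ ((x + (x ^ 2 + y ^ 2) * z0) / qn x y z0) (y / qn x y z0) := by
  have e1 : qn x y z0 * ((x + (x ^ 2 + y ^ 2) * z0) / qn x y z0) =
      x + (x ^ 2 + y ^ 2) * z0 := by
    field_simp
  have e2 : qn x y z0 * (((x + (x ^ 2 + y ^ 2) * z0) / qn x y z0) ^ 2 + (y / qn x y z0) ^ 2) =
      x ^ 2 + y ^ 2 := by
    have e3 : (x + (x ^ 2 + y ^ 2) * z0) ^ 2 + y ^ 2 = (x ^ 2 + y ^ 2) * qn x y z0 := by
      unfold qn
      ring
    rw [div_pow, div_pow, ← add_div, e3]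
    field_simp
  unfold nm
  cases κ
  · simp only [Bool.false_eq_true, if_false]
    rw [mul_add, ← mul_assoc, ← C_mul, ← C_mul, e1, e2, map_add, taylor_mul, taylor_C, taylor_C,
      taylor_X]
    have e4 : C (x + (x ^ 2 + y ^ 2) * z0) = C x + C (x ^ 2 + y ^ 2) * C z0 := by
      rw [C_add, C_mul]
    rw [e4]
    ring
  · simp only [if_true]
    rw [taylor_C, ← C_mul]
    congr 1
    field_simp

theorem local_one (κ : Bool) (x y z0 : ℚ) (h : qn x y z0 ≠ 0) :
    ((taylor z0 (qd x y) : ℚ[X]) : PowerSeries ℚ) * PowerSeries.derivative ℚ (lamG κ x y z0) =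
      ((taylor z0 (nm κ x y) : ℚ[X]) : PowerSeries ℚ) := by
  rw [tay_qd x y z0 h, tay_nm κ x y z0 h, Polynomial.coe_mul, Polynomial.coe_mul, mul_assoc]
  unfold lamG
  rw [der_lgG]

theorem pf_LOG : T_LOG := by
  intro s κ x y z0 h k
  constructor
  · show PowerSeries.constantCoeff (lamG (κ k) (x k) (y k) z0) = 0
    unfold lamG lgG
    rw [← PowerSeries.coeff_zero_eq_constantCoeff_apply, PowerSeries.coeff_mk]
    simp
  · show ((taylor z0 (∏ j, qd (x j) (y j)) : ℚ[X]) : PowerSeries ℚ) *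
      PowerSeries.derivative ℚ (lamG (κ k) (x k) (y k) z0) =
      ((taylor z0 (nm (κ k) (x k) (y k) * ∏ j ∈ univ.erase k, qd (x j) (y j)) : ℚ[X]) :
        PowerSeries ℚ)
    rw [← Finset.mul_prod_erase _ _ (Finset.mem_univ k), taylor_mul, taylor_mul,
      Polynomial.coe_mul, Polynomial.coe_mul, mul_right_comm, local_one _ _ _ _ (h k)]

end Pool.Agent.H72.GPO
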